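import Mathlib

/-!
Clique game: basic definitions and transfer of positions along injections.
-/

set_option autoImplicit false

namespace Pool.CG

variable {V W : Type}

/-- Some `q` vertices have all their pairs in `E`. -/
def HasK (q : ℕ) (E : Set (Sym2 V)) : Prop :=
  ∃ s : Finset V, s.card = q ∧ ∀ x ∈ s, ∀ y ∈ s, x ≠ y → s(x, y) ∈ E

theorem HasK.mono {q : ℕ} {E F : Set (Sym2 V)} (h : E ⊆ F) : HasK q E → HasK q F := by
  rintro ⟨s, hs, h1⟩
  exact ⟨s, hs, fun x hx y hy hxy => h (h1 x hx y hy hxy)⟩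

theorem not_hasK_empty {q : ℕ} (hq : 2 ≤ q) : ¬ HasK q (∅ : Set (Sym2 V)) := by
  rintro ⟨s, hs, h1⟩
  have h2 : 1 < s.card := by omega
  obtain ⟨x, hx, y, hy, hxy⟩ := Finset.one_lt_card.1 h2
  exact h1 x hx y hy hxy

theorem HasK.image {q : ℕ} {E : Set (Sym2 V)} (ι : V ↪ W) :
    HasK q E → HasK q (Sym2.map ι '' E) := by
  rintro ⟨s, hs, h1⟩
  refine ⟨s.map ι, by simpa using hs, ?_⟩
  intro x hx y hy hxy
  obtain ⟨a, ha, rfl⟩ := Finset.mem_map.1 hx
  obtain ⟨b, hb, rfl⟩ := Finset.mem_map.1 hy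
  exact ⟨s(a, b), h1 a ha b hb (fun h => hxy (by rw [h])), by simp⟩

theorem HasK.of_image {q : ℕ} (hq : 2 ≤ q) {E : Set (Sym2 V)} (ι : V ↪ W) :
    HasK q (Sym2.map ι '' E) → HasK q E := by
  classical
  rintro ⟨s, hs, h1⟩
  have hr : ∀ x ∈ s, ∃ v, ι v = x := by
    intro x hx
    have h2 : 1 < s.card := by omega
    obtain ⟨y, hy, hyx⟩ := Finset.exists_mem_ne h2 x
    obtain ⟨e, -, he⟩ := h1 x hx y hy hyx.symm
    have hx' : x ∈ Sym2.map ι e := by rw [he]; exact Sym2.mem_mk_left x y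
    obtain ⟨v, -, hv⟩ := Sym2.mem_map.1 hx'
    exact ⟨v, hv⟩
  refine ⟨s.preimage ι ι.injective.injOn, ?_, ?_⟩
  · rw [Finset.card_preimage, ← hs]
    congr 1
    refine Finset.filter_true_of_mem ?_
    intro x hx
    obtain ⟨v, hv⟩ := hr x hx
    exact ⟨v, hv⟩
  · intro x hx y hy hxy
    rw [Finset.mem_preimage] at hx hy
    obtain ⟨e, he, he2⟩ := h1 _ hx _ hy (fun h => hxy (ι.injective h))
    have h3 : Sym2.map ι e = Sym2.map ι s(x, y) := by rw [he2]; simp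
    have h4 := Sym2.map.injective ι.injective h3
    rwa [← h4]

/-- The edge `e` can be claimed. -/
def Leg (A B : Set (Sym2 V)) (e : Sym2 V) : Prop := ¬ e.IsDiag ∧ e ∉ A ∧ e ∉ B

/-- The player with the edges `A` is to move and wins in at most `k` moves; whenever his opponent is to
move, the position satisfies `G`. -/
def WB (q : ℕ) (G : Set (Sym2 V) → Set (Sym2 V) → Prop) :
    ℕ → Set (Sym2 V) → Set (Sym2 V) → Prop
  | 0, _, _ => False
  | k + 1, A, B => ∃ e, Leg A B e ∧ (HasK q (insert e A) ∨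
      (G (insert e A) B ∧ (∃ f, Leg (insert e A) B f) ∧
        ∀ f, Leg (insert e A) B f → ¬ HasK q (insert f B) ∧ WB q G k (insert e A) (insert f B)))

/-- Two vertices are untouched. -/
def Res (A B : Set (Sym2 V)) : Prop :=
  ∃ u v : V, u ≠ v ∧ ∀ e : Sym2 V, (e ∈ A ∨ e ∈ B) → u ∉ e ∧ v ∉ e

/-- No condition. -/
def Tr (_ _ : Set (Sym2 V)) : Prop := True

theorem WB.mono_k {q : ℕ} {G : Set (Sym2 V) → Set (Sym2 V) → Prop} :
    ∀ {k l : ℕ}, k ≤ l → ∀ {A B : Set (Sym2 V)}, WB q G k A B → WB q G l A B := by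
  intro k
  induction k with
  | zero => intro l _ A B h; exact h.elim
  | succ k ih =>
    intro l hl A B h
    obtain ⟨l, rfl⟩ : ∃ l', l = l' + 1 := ⟨l - 1, by omega⟩
    obtain ⟨e, he, h1⟩ := h
    refine ⟨e, he, ?_⟩
    rcases h1 with h1 | ⟨h1, h2, h3⟩
    · exact Or.inl h1
    · exact Or.inr ⟨h1, h2, fun f hf => ⟨(h3 f hf).1, ih (by omega) (h3 f hf).2⟩⟩

theorem WB.toTr {q : ℕ} {G : Set (Sym2 V) → Set (Sym2 V) → Prop} :
    ∀ {k : ℕ} {A B : Set (Sym2 V)}, WB q G k A B → WB q Tr k A B := by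
  intro k
  induction k with
  | zero => intro A B h; exact h.elim
  | succ k ih =>
    intro A B h
    obtain ⟨e, he, h1⟩ := h
    refine ⟨e, he, ?_⟩
    rcases h1 with h1 | ⟨h1, h2, h3⟩
    · exact Or.inl h1
    · exact Or.inr ⟨trivial, h2, fun f hf => ⟨(h3 f hf).1, ih (h3 f hf).2⟩⟩

/-- Change an injection outside a set so that it takes a given value. -/
theorem reembed (ι : V ↪ W) (S : Set V) (u : V) (hu : u ∉ S) (a : W) :
    ∃ κ : V ↪ W, (∀ v ∈ S, κ v = ι v) ∧ ∃ v, κ v = a ∧ (v ∈ S ∨ v = u) := by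
  classical
  by_cases ha : ∃ v ∈ S, ι v = a
  · obtain ⟨v, hv, hva⟩ := ha
    exact ⟨ι, fun _ _ => rfl, v, hva, Or.inl hv⟩
  · refine ⟨ι.trans (Equiv.swap (ι u) a).toEmbedding, ?_, u, ?_, Or.inr rfl⟩
    · intro v hv
      have h1 : ι v ≠ ι u := fun h => hu (ι.injective h ▸ hv)
      have h2 : ι v ≠ a := fun h => ha ⟨v, hv, h⟩
      simp [Equiv.swap_apply_of_ne_of_ne h1 h2]
    · simp

/-- Both values at the same time. -/
theorem reembed2 (ι : V ↪ W) (S : Set V) (u u' : V) (hu : u ∉ S) (hu' : u' ∉ S) (huu : u ≠ u')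
    (a b : W) :
    ∃ κ : V ↪ W, (∀ v ∈ S, κ v = ι v) ∧ ∃ v v', κ v = a ∧ κ v' = b ∧ (v ∈ S ∨ v = u ∨ v = u') ∧
      (v' ∈ S ∨ v' = u ∨ v' = u') := by
  obtain ⟨κ, h1, v, h2, h3⟩ := reembed ι S u hu a
  have hu2 : u' ∉ S ∪ {u} := by
    rintro (h | h)
    · exact hu' h
    · exact huu h.symm
  obtain ⟨κ', h4, v', h5, h6⟩ := reembed κ (S ∪ {u}) u' hu2 b
  refine ⟨κ', fun w hw => by rw [h4 w (Or.inl hw), h1 w hw], v, v', ?_, h5, ?_, ?_⟩
  · rw [h4 v, h2]
    rcases h3 with h | h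
    · exact Or.inl h
    · exact Or.inr h
  · rcases h3 with h | h
    · exact Or.inl h
    · exact Or.inr (Or.inl h)
  · rcases h6 with (h | h) | h
    · exact Or.inl h
    · exact Or.inr (Or.inl h)
    · exact Or.inr (Or.inr h)

/-- The edges of `A` have their ends in `S`. -/
def Sup (S : Set V) (A : Set (Sym2 V)) : Prop := ∀ e ∈ A, ∀ v ∈ e, v ∈ S

theorem map_image_congr {ι κ : V → W} {S : Set V} (h : ∀ v ∈ S, κ v = ι v) {A : Set (Sym2 V)}
    (hA : Sup S A) : Sym2.map κ '' A = Sym2.map ι '' A := by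
  apply Set.image_congr
  intro e he
  exact Sym2.map_congr (fun v hv => h v (hA e he v hv))

theorem leg_image {ι : V ↪ W} {A B : Set (Sym2 V)} {e : Sym2 V} :
    Leg (Sym2.map ι '' A) (Sym2.map ι '' B) (Sym2.map ι e) ↔ Leg A B e := by
  have hi := Sym2.map.injective ι.injective
  unfold Leg
  rw [hi.mem_set_image, hi.mem_set_image]
  have : (Sym2.map ι e).IsDiag ↔ e.IsDiag := by
    induction e with
    | h x y => simp
  rw [this]

end Pool.CG
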