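import Pool.Agent.H31.CG.Win

/-!
Clique game: Ramsey's theorem and the equivalences.
-/

set_option autoImplicit false

namespace Pool.CG

variable {V W : Type}

theorem ramsey_aux : ∀ s t : ℕ, ∃ N : ℕ, ∀ (V : Type) (S : Finset V), N ≤ S.card →
    ∀ c : Sym2 V → Bool,
      (∃ A : Finset V, A ⊆ S ∧ A.card = s ∧ ∀ x ∈ A, ∀ y ∈ A, x ≠ y → c s(x, y) = true) ∨
      ∃ A : Finset V, A ⊆ S ∧ A.card = t ∧ ∀ x ∈ A, ∀ y ∈ A, x ≠ y → c s(x, y) = false := by
  classical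
  intro s
  induction s with
  | zero =>
    intro t
    exact ⟨0, fun V S _ c => Or.inl ⟨∅, by simp, rfl, by simp⟩⟩
  | succ s ihs =>
    intro t
    induction t with
    | zero => exact ⟨0, fun V S _ c => Or.inr ⟨∅, by simp, rfl, by simp⟩⟩
    | succ t iht =>
      obtain ⟨N1, h1⟩ := ihs (t + 1)
      obtain ⟨N2, h2⟩ := iht
      refine ⟨N1 + N2 + 1, ?_⟩
      intro V S hS c
      obtain ⟨v, hv⟩ : S.Nonempty := Finset.card_pos.1 (by omega)
      have hc : ((S.erase v).filter (fun w => c s(v, w) = true)).card +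
          ((S.erase v).filter (fun w => ¬ c s(v, w) = true)).card = (S.erase v).card :=
        Finset.card_filter_add_card_filter_not (s := S.erase v) (fun w => c s(v, w) = true)
      have he : (S.erase v).card = S.card - 1 := Finset.card_erase_of_mem hv
      have hins : ∀ (b : Bool) (A : Finset V), A ⊆ S.erase v →
          (∀ w ∈ A, c s(v, w) = b) → (∀ x ∈ A, ∀ y ∈ A, x ≠ y → c s(x, y) = b) →
          insert v A ⊆ S ∧ (insert v A).card = A.card + 1 ∧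
            ∀ x ∈ insert v A, ∀ y ∈ insert v A, x ≠ y → c s(x, y) = b := by
        intro b A hA hvA hAA
        have hvn : v ∉ A := fun h => by simpa using hA h
        refine ⟨?_, Finset.card_insert_of_notMem hvn, ?_⟩
        · intro w hw
          rcases Finset.mem_insert.1 hw with rfl | hw
          · exact hv
          · exact Finset.mem_of_mem_erase (hA hw)
        · intro x hx y hy hxy
          rcases Finset.mem_insert.1 hx with h3 | h3
          · rcases Finset.mem_insert.1 hy with h4 | h4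
            · exact absurd (h3.trans h4.symm) hxy
            · rw [h3]; exact hvA y h4
          · rcases Finset.mem_insert.1 hy with h4 | h4
            · rw [h4, Sym2.eq_swap]; exact hvA x h3
            · exact hAA x h3 y h4 hxy
      by_cases hcase : N1 ≤ ((S.erase v).filter (fun w => c s(v, w) = true)).card
      · rcases h1 V _ hcase c with ⟨A, hA, hA2, hA3⟩ | ⟨A, hA, hA2, hA3⟩
        · obtain ⟨g1, g2, g3⟩ := hins true A (hA.trans (Finset.filter_subset _ _))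
            (fun w hw => (Finset.mem_filter.1 (hA hw)).2) hA3
          exact Or.inl ⟨insert v A, g1, by omega, g3⟩
        · exact Or.inr ⟨A, (hA.trans (Finset.filter_subset _ _)).trans (Finset.erase_subset _ _),
            hA2, hA3⟩
      · have hcase2 : N2 ≤ ((S.erase v).filter (fun w => ¬ c s(v, w) = true)).card := by omega
        rcases h2 V _ hcase2 c with ⟨A, hA, hA2, hA3⟩ | ⟨A, hA, hA2, hA3⟩
        · exact Or.inl ⟨A, (hA.trans (Finset.filter_subset _ _)).trans (Finset.erase_subset _ _),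
            hA2, hA3⟩
        · obtain ⟨g1, g2, g3⟩ := hins false A (hA.trans (Finset.filter_subset _ _))
            (fun w hw => by simpa using (Finset.mem_filter.1 (hA hw)).2) hA3
          exact Or.inr ⟨insert v A, g1, by omega, g3⟩

theorem ramsey (q : ℕ) : ∃ N : ℕ, ∀ n, N ≤ n → Ram (Fin n) q := by
  obtain ⟨N, hN⟩ := ramsey_aux q q
  refine ⟨N, ?_⟩
  intro n hn c
  rcases hN (Fin n) Finset.univ (by simpa using hn) c with ⟨A, -, h1, h2⟩ | ⟨A, -, h1, h2⟩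
  · exact ⟨A, h1, true, h2⟩
  · exact ⟨A, h1, false, h2⟩

/-- The first player wins in at most `C` moves. -/
def WinsIn (V : Type) (q C : ℕ) : Prop := Wins V q (fun _ k => k < C)

/-- The first player wins such that before his last move two vertices are untouched. -/
def WinsR (V : Type) (q : ℕ) : Prop :=
  Wins V q (fun p k => ∃ u v : V, u ≠ v ∧ ∀ m, m + 2 ≤ 2 * k → u ∉ p m ∧ v ∉ p m)

/-- The second player has a drawing strategy. -/
def Draws (V : Type) (q : ℕ) : Prop :=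
  ∃ τ : List (Sym2 V) → Sym2 V, ∀ p : ℕ → Sym2 V, Fol2 τ p → Legal2 q p ∧
    ∀ k, Legal1 p k → ¬ HasK q (E2 p k) → ¬ HasK q (E1 p k)

theorem room_fin {n m : ℕ} (h : m ≤ n) : Room (Fin n) m := Or.inr (by simpa using h)

theorem room_nat (m : ℕ) : Room ℕ m := Or.inl inferInstance

theorem WB_of_winsR {q : ℕ} (hq : 2 ≤ q) [Finite V] (hc : Cont V q) (h : WinsR V q) :
    ∃ k, WB q Res k (∅ : Set (Sym2 V)) ∅ := by
  by_contra h0
  push Not at h0
  obtain ⟨τ, hτ⟩ := exists_tau hq (mx_fin q Res) hc h0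
  obtain ⟨σ, hσ⟩ := h
  obtain ⟨p, hp1, hp2⟩ := exists_play σ τ
  obtain ⟨h1, h2⟩ := hτ p hp2
  obtain ⟨k, ⟨u, v, huv, hk⟩, h3, h4, h5⟩ := hσ p hp1 h1
  refine h2 k h5 h4 h3 ?_
  intro j hj
  refine ⟨u, v, huv, ?_⟩
  rintro e (⟨l, hl, rfl⟩ | ⟨l, hl, rfl⟩)
  · exact hk _ (by omega)
  · exact hk _ (by omega)

theorem winsR_of_WB {q : ℕ} (hq : 2 ≤ q) {k : ℕ} (h : WB q Res k (∅ : Set (Sym2 V)) ∅) :
    WinsR V q := by
  have huv : ∃ u v : V, u ≠ v := by
    rcases k with _ | k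
    · exact h.elim
    · obtain ⟨e, he, -⟩ := h
      induction e with
      | h x y => exact ⟨x, y, by simpa using he.1⟩
  refine (wins_of_WBG hq h).mono ?_
  rintro p k ⟨-, h1⟩
  rcases Nat.eq_zero_or_pos k with h0 | h0
  · subst h0
    obtain ⟨u, v, huv⟩ := huv
    exact ⟨u, v, huv, fun m hm => absurd hm (by omega)⟩
  · obtain ⟨u, v, huv, h2⟩ := h1 (k - 1) (by omega)
    refine ⟨u, v, huv, ?_⟩
    intro m hm
    apply h2
    rcases Nat.even_or_odd m with ⟨j, hj⟩ | ⟨j, hj⟩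
    · exact Or.inl ⟨j, by omega, by rw [hj]; congr 1; omega⟩
    · exact Or.inr ⟨j, by omega, by rw [hj]⟩

theorem q1_of_nat {q : ℕ} (hq : 2 ≤ q) {C : ℕ} (h : WB q Tr C (∅ : Set (Sym2 ℕ)) ∅) :
    ∃ C : ℕ, ∀ n, Ram (Fin n) q → WinsIn (Fin n) q C := by
  have hK : ∀ n, ∃ K, Ram (Fin n) q → WB q Tr K (∅ : Set (Sym2 (Fin n))) ∅ := by
    intro n
    by_cases hn : Ram (Fin n) q
    · obtain ⟨K, hK⟩ := steal hq (cont_ram hn)
      exact ⟨K, fun _ => hK⟩
    · exact ⟨0, fun h => absurd h hn⟩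
  choose K hK using hK
  refine ⟨max C ((Finset.range (4 * C)).sup K), ?_⟩
  intro n hn
  by_cases hc : n < 4 * C
  · exact wins_of_WB hq ((hK n hn).mono_k (le_max_of_le_right
      (Finset.le_sup (f := K) (Finset.mem_range.2 hc))))
  · exact wins_of_WB hq ((WB.board hq (room_nat _) (room_fin (by omega)) h).mono_k
      (le_max_left _ _))

/-- All the equivalences. -/
theorem main (q : ℕ) (hq : 2 ≤ q) :
    (∀ C n : ℕ, Ram (Fin n) q → 4 * C ≤ n + 2 → (WinsIn (Fin n) q C ↔ WinsIn ℕ q C)) ∧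
    (∀ m n : ℕ, m ≤ n → Ram (Fin m) q → WinsR (Fin m) q → WinsR (Fin n) q) ∧
    ((∃ C : ℕ, ∀ n, Ram (Fin n) q → WinsIn (Fin n) q C) ↔
      ∃ C n : ℕ, Ram (Fin n) q ∧ 4 * C ≤ n + 2 ∧ WinsIn (Fin n) q C) ∧
    ((∃ C : ℕ, ∀ n, Ram (Fin n) q → WinsIn (Fin n) q C) ↔
      ∃ n : ℕ, Ram (Fin n) q ∧ WinsR (Fin n) q) ∧
    ((∃ C : ℕ, ∀ n, Ram (Fin n) q → WinsIn (Fin n) q C) ↔ Wins ℕ q (fun _ _ => True)) ∧
    ((∃ C : ℕ, ∀ n, Ram (Fin n) q → WinsIn (Fin n) q C) ↔ ¬ Draws ℕ q) := by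
  have hb : ∀ C n : ℕ, Ram (Fin n) q → 4 * C ≤ n + 2 → (WinsIn (Fin n) q C ↔ WinsIn ℕ q C) := by
    intro C n hn hC
    constructor
    · intro h
      exact wins_of_WB hq (WB.board hq (room_fin (by omega)) (room_nat _)
        (WB_of_wins hq (cont_ram hn) h))
    · intro h
      exact wins_of_WB hq (WB.board hq (room_nat _) (room_fin (by omega))
        (WB_of_wins hq (cont_inf q) h))
  have h12 : (∃ C : ℕ, ∀ n, Ram (Fin n) q → WinsIn (Fin n) q C) →
      ∃ C n : ℕ, Ram (Fin n) q ∧ 4 * C ≤ n + 2 ∧ WinsIn (Fin n) q C := by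
    rintro ⟨C, hC⟩
    obtain ⟨N, hN⟩ := ramsey q
    have hn := hN (max N (4 * C)) (le_max_left _ _)
    exact ⟨C, max N (4 * C), hn, by have := le_max_right N (4 * C); omega, hC _ hn⟩
  have h23 : (∃ C n : ℕ, Ram (Fin n) q ∧ 4 * C ≤ n + 2 ∧ WinsIn (Fin n) q C) →
      ∃ n : ℕ, Ram (Fin n) q ∧ WinsR (Fin n) q := by
    rintro ⟨C, n, hn, hC, h⟩
    refine ⟨n, hn, winsR_of_WB hq (WB.res ∅ (sup_empty _) (sup_empty _)
      (room_fin (by simp only [Finset.card_empty]; omega)) (WB_of_wins hq (cont_ram hn) h))⟩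
  have h34 : (∃ n : ℕ, Ram (Fin n) q ∧ WinsR (Fin n) q) →
      ∃ C, WB q Tr C (∅ : Set (Sym2 ℕ)) ∅ := by
    rintro ⟨n, hn, h⟩
    obtain ⟨k, hk⟩ := WB_of_winsR hq (cont_ram hn) h
    have h2 := hk.up hq (Fin.valEmbedding : Fin n ↪ ℕ)
    rw [Set.image_empty] at h2
    exact ⟨k, h2.toTr⟩
  have h41 : (∃ C, WB q Tr C (∅ : Set (Sym2 ℕ)) ∅) →
      ∃ C : ℕ, ∀ n, Ram (Fin n) q → WinsIn (Fin n) q C := fun ⟨C, hC⟩ => q1_of_nat hq hC
  have h45 : (∃ C, WB q Tr C (∅ : Set (Sym2 ℕ)) ∅) → Wins ℕ q (fun _ _ => True) := by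
    rintro ⟨C, hC⟩
    exact (wins_of_WB hq hC).mono (fun _ _ _ => trivial)
  have h56 : Wins ℕ q (fun _ _ => True) → ¬ Draws ℕ q := by
    rintro ⟨σ, hσ⟩ ⟨τ, hτ⟩
    obtain ⟨p, hp1, hp2⟩ := exists_play σ τ
    obtain ⟨h1, h2⟩ := hτ p hp2
    obtain ⟨k, -, h3, h4, h5⟩ := hσ p hp1 h1
    exact h2 k h5 h4 h3
  have h64 : ¬ Draws ℕ q → ∃ C, WB q Tr C (∅ : Set (Sym2 ℕ)) ∅ := by
    intro h
    by_contra h0
    push Not at h0
    obtain ⟨τ, hτ⟩ := exists_tau hq (mx_inf hq) (cont_inf q) h0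
    exact h ⟨τ, fun p hp => ⟨(hτ p hp).1, fun k g1 g2 g3 => (hτ p hp).2 k g1 g2 g3
      (fun _ _ => trivial)⟩⟩
  refine ⟨hb, ?_, ⟨h12, fun h => h41 (h34 (h23 h))⟩, ⟨fun h => h23 (h12 h), fun h => h41 (h34 h)⟩,
    ⟨fun h => h45 (h34 (h23 (h12 h))), fun h => h41 (h64 (h56 h))⟩,
    ⟨fun h => h56 (h45 (h34 (h23 (h12 h)))), fun h => h41 (h64 h)⟩⟩
  intro m n hmn hm h
  obtain ⟨k, hk⟩ := WB_of_winsR hq (cont_ram hm) h
  have h2 := hk.up hq (Fin.castLEEmb hmn)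
  rw [Set.image_empty] at h2
  exact winsR_of_WB hq h2

end Pool.CG
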