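import Pool.Agent.H31.CG.Tra

/-!
Clique game: plays and strategies against winning positions.
-/

set_option autoImplicit false

namespace Pool.CG

variable {V W : Type}

/-- The edges of the first player after his move number `i` (moves are numbered from `0`). -/
def E1 (p : ℕ → Sym2 V) (i : ℕ) : Set (Sym2 V) := {e | ∃ j, j ≤ i ∧ p (2 * j) = e}

/-- The edges of the second player at that moment. -/
def E2 (p : ℕ → Sym2 V) (i : ℕ) : Set (Sym2 V) := {e | ∃ j, j < i ∧ p (2 * j + 1) = e}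

/-- The first player follows the strategy `σ`. -/
def Fol1 (σ : List (Sym2 V) → Sym2 V) (p : ℕ → Sym2 V) : Prop :=
  ∀ i, p (2 * i) = σ ((List.range (2 * i)).map p)

/-- The second player follows the strategy `τ`. -/
def Fol2 (τ : List (Sym2 V) → Sym2 V) (p : ℕ → Sym2 V) : Prop :=
  ∀ i, p (2 * i + 1) = τ ((List.range (2 * i + 1)).map p)

/-- As long as nobody has won, the second player makes legal moves. -/
def Legal2 (q : ℕ) (p : ℕ → Sym2 V) : Prop :=
  ∀ i, ¬ HasK q (E1 p i) → ¬ HasK q (E2 p i) →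
    ¬ (p (2 * i + 1)).IsDiag ∧ ∀ m, m ≤ 2 * i → p m ≠ p (2 * i + 1)

/-- The first player's moves number `0`, .., `k` are legal. -/
def Legal1 (p : ℕ → Sym2 V) (k : ℕ) : Prop :=
  ∀ j, j ≤ k → ¬ (p (2 * j)).IsDiag ∧ ∀ m, m < 2 * j → p m ≠ p (2 * j)

/-- The first player has a strategy which wins, at a move number `k` such that `P p k`. -/
def Wins (V : Type) (q : ℕ) (P : (ℕ → Sym2 V) → ℕ → Prop) : Prop :=
  ∃ σ : List (Sym2 V) → Sym2 V, ∀ p : ℕ → Sym2 V, Fol1 σ p → Legal2 q p →
    ∃ k, P p k ∧ HasK q (E1 p k) ∧ ¬ HasK q (E2 p k) ∧ Legal1 p k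

/-- The edges of the first player before his move number `i`. -/
def F1 (p : ℕ → Sym2 V) (i : ℕ) : Set (Sym2 V) := {e | ∃ j, j < i ∧ p (2 * j) = e}

theorem E1_eq (p : ℕ → Sym2 V) (i : ℕ) : E1 p i = insert (p (2 * i)) (F1 p i) := by
  ext e
  constructor
  · rintro ⟨j, hj, h⟩
    rcases Nat.lt_or_eq_of_le hj with h1 | h1
    · exact Or.inr ⟨j, h1, h⟩
    · subst h1
      exact Or.inl h.symm
  · rintro (h | ⟨j, hj, h⟩)
    · exact ⟨i, le_rfl, h.symm⟩
    · exact ⟨j, hj.le, h⟩

theorem F1_succ (p : ℕ → Sym2 V) (i : ℕ) : F1 p (i + 1) = E1 p i := by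
  ext e
  constructor
  · rintro ⟨j, hj, h⟩
    exact ⟨j, by omega, h⟩
  · rintro ⟨j, hj, h⟩
    exact ⟨j, by omega, h⟩

theorem E2_succ (p : ℕ → Sym2 V) (i : ℕ) : E2 p (i + 1) = insert (p (2 * i + 1)) (E2 p i) := by
  ext e
  constructor
  · rintro ⟨j, hj, h⟩
    rcases Nat.lt_or_eq_of_le (Nat.lt_succ_iff.1 hj) with h1 | h1
    · exact Or.inr ⟨j, h1, h⟩
    · subst h1
      exact Or.inl h.symm
  · rintro (h | ⟨j, hj, h⟩)
    · exact ⟨i, by omega, h.symm⟩
    · exact ⟨j, by omega, h⟩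

theorem F1_zero (p : ℕ → Sym2 V) : F1 p 0 = ∅ := by
  ext e
  simp [F1]

theorem E2_zero (p : ℕ → Sym2 V) : E2 p 0 = ∅ := by
  ext e
  simp [E2]

theorem E2_mono (p : ℕ → Sym2 V) {i j : ℕ} (h : i ≤ j) : E2 p i ⊆ E2 p j := by
  rintro e ⟨l, hl, h1⟩
  exact ⟨l, by omega, h1⟩

theorem F1_finite (p : ℕ → Sym2 V) (i : ℕ) : (F1 p i).Finite := by
  refine Set.Finite.subset ((Set.finite_Iio i).image (fun j => p (2 * j))) ?_
  rintro e ⟨j, hj, h⟩
  exact ⟨j, hj, h⟩

theorem E2_finite (p : ℕ → Sym2 V) (i : ℕ) : (E2 p i).Finite := by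
  refine Set.Finite.subset ((Set.finite_Iio i).image (fun j => p (2 * j + 1))) ?_
  rintro e ⟨j, hj, h⟩
  exact ⟨j, hj, h⟩

/-- The edges of the two players in a history. -/
def H1 (h : List (Sym2 V)) : Set (Sym2 V) := {e | ∃ j, h[2 * j]? = some e}
def H2 (h : List (Sym2 V)) : Set (Sym2 V) := {e | ∃ j, h[2 * j + 1]? = some e}

theorem getElem?_hist (p : ℕ → Sym2 V) (n m : ℕ) :
    ((List.range n).map p)[m]? = if m < n then some (p m) else none := by
  rw [List.getElem?_map]
  split_ifs with h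
  · rw [List.getElem?_range h]; rfl
  · rw [List.getElem?_eq_none (by simpa using h)]; rfl

theorem H1_even (p : ℕ → Sym2 V) (i : ℕ) : H1 ((List.range (2 * i)).map p) = F1 p i := by
  ext e
  constructor
  · rintro ⟨j, hj⟩
    rw [getElem?_hist] at hj
    split_ifs at hj with h
    exact ⟨j, by omega, by simpa using hj⟩
  · rintro ⟨j, hj, h⟩
    refine ⟨j, ?_⟩
    rw [getElem?_hist, if_pos (by omega), h]

theorem H2_even (p : ℕ → Sym2 V) (i : ℕ) : H2 ((List.range (2 * i)).map p) = E2 p i := by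
  ext e
  constructor
  · rintro ⟨j, hj⟩
    rw [getElem?_hist] at hj
    split_ifs at hj with h
    exact ⟨j, by omega, by simpa using hj⟩
  · rintro ⟨j, hj, h⟩
    refine ⟨j, ?_⟩
    rw [getElem?_hist, if_pos (by omega), h]

theorem H1_odd (p : ℕ → Sym2 V) (i : ℕ) : H1 ((List.range (2 * i + 1)).map p) = E1 p i := by
  ext e
  constructor
  · rintro ⟨j, hj⟩
    rw [getElem?_hist] at hj
    split_ifs at hj with h
    exact ⟨j, by omega, by simpa using hj⟩
  · rintro ⟨j, hj, h⟩
    refine ⟨j, ?_⟩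
    rw [getElem?_hist, if_pos (by omega), h]

theorem H2_odd (p : ℕ → Sym2 V) (i : ℕ) : H2 ((List.range (2 * i + 1)).map p) = E2 p i := by
  ext e
  constructor
  · rintro ⟨j, hj⟩
    rw [getElem?_hist] at hj
    split_ifs at hj with h
    exact ⟨j, by omega, by simpa using hj⟩
  · rintro ⟨j, hj, h⟩
    refine ⟨j, ?_⟩
    rw [getElem?_hist, if_pos (by omega), h]

theorem leg1_iff (p : ℕ → Sym2 V) (i : ℕ) :
    Leg (F1 p i) (E2 p i) (p (2 * i)) ↔
      (¬ (p (2 * i)).IsDiag ∧ ∀ m, m < 2 * i → p m ≠ p (2 * i)) := by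
  constructor
  · rintro ⟨h1, h2, h3⟩
    refine ⟨h1, ?_⟩
    intro m hm h
    rcases Nat.even_or_odd m with ⟨j, hj⟩ | ⟨j, hj⟩
    · exact h2 ⟨j, by omega, by rw [← h, hj]; congr 1; omega⟩
    · exact h3 ⟨j, by omega, by rw [← h, hj]⟩
  · rintro ⟨h1, h2⟩
    refine ⟨h1, ?_, ?_⟩
    · rintro ⟨j, hj, h⟩
      exact h2 _ (by omega) h
    · rintro ⟨j, hj, h⟩
      exact h2 _ (by omega) h

theorem leg2_iff (p : ℕ → Sym2 V) (i : ℕ) :
    Leg (E1 p i) (E2 p i) (p (2 * i + 1)) ↔
      (¬ (p (2 * i + 1)).IsDiag ∧ ∀ m, m ≤ 2 * i → p m ≠ p (2 * i + 1)) := by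
  constructor
  · rintro ⟨h1, h2, h3⟩
    refine ⟨h1, ?_⟩
    intro m hm h
    rcases Nat.even_or_odd m with ⟨j, hj⟩ | ⟨j, hj⟩
    · exact h2 ⟨j, by omega, by rw [← h, hj]; congr 1; omega⟩
    · exact h3 ⟨j, by omega, by rw [← h, hj]⟩
  · rintro ⟨h1, h2⟩
    refine ⟨h1, ?_, ?_⟩
    · rintro ⟨j, hj, h⟩
      exact h2 _ (by omega) h
    · rintro ⟨j, hj, h⟩
      exact h2 _ (by omega) h

/-- The move `e` wins, or leads to a position won in one move less. -/
def Good (q : ℕ) (G : Set (Sym2 V) → Set (Sym2 V) → Prop) (k : ℕ) (A B : Set (Sym2 V))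
    (e : Sym2 V) : Prop :=
  Leg A B e ∧ (HasK q (insert e A) ∨
      (G (insert e A) B ∧ (∃ f, Leg (insert e A) B f) ∧
        ∀ f, Leg (insert e A) B f → ¬ HasK q (insert f B) ∧ WB q G k (insert e A) (insert f B)))

/-- From positions to strategies. -/
theorem wins_of_WBG {q : ℕ} (hq : 2 ≤ q) {G : Set (Sym2 V) → Set (Sym2 V) → Prop} {C : ℕ}
    (h : WB q G C (∅ : Set (Sym2 V)) ∅) :
    Wins V q (fun p k => k < C ∧ ∀ j, j < k → G (E1 p j) (E2 p j)) := by
  classical
  obtain ⟨C, rfl⟩ : ∃ C', C = C' + 1 := by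
    rcases C with _ | C
    · exact h.elim
    · exact ⟨C, rfl⟩
  obtain ⟨d, -⟩ := id h
  refine ⟨fun h => if H : ∃ e, Good q G (C - h.length / 2) (H1 h) (H2 h) e then H.choose else d, ?_⟩
  intro p hp hl
  have key : ∀ i, i ≤ C + 1 →
      (∃ k, (k < i ∧ ∀ j, j < k → G (E1 p j) (E2 p j)) ∧
        HasK q (E1 p k) ∧ ¬ HasK q (E2 p k) ∧ Legal1 p k) ∨
      (WB q G (C + 1 - i) (F1 p i) (E2 p i) ∧ ¬ HasK q (E2 p i) ∧ ¬ HasK q (F1 p i) ∧
        (∀ j, j < i → ¬ (p (2 * j)).IsDiag ∧ ∀ m, m < 2 * j → p m ≠ p (2 * j)) ∧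
        ∀ j, j < i → G (E1 p j) (E2 p j)) := by
    intro i
    induction i with
    | zero =>
      intro _
      right
      rw [F1_zero, E2_zero]
      exact ⟨h, not_hasK_empty hq, not_hasK_empty hq, fun j hj => absurd hj (by omega),
        fun j hj => absurd hj (by omega)⟩
    | succ i ih =>
      intro hi
      rcases ih (by omega) with ⟨k, hk, hk2⟩ | ⟨h1, h2, h2', h3, hG⟩
      · exact Or.inl ⟨k, ⟨by omega, hk.2⟩, hk2⟩
      · have hC : C + 1 - i = (C - i) + 1 := by omega
        rw [hC] at h1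
        have hlen : ((List.range (2 * i)).map p).length / 2 = i := by
          rw [List.length_map, List.length_range]; omega
        have hex : ∃ e, Good q G (C - i) (F1 p i) (E2 p i) e := h1
        have hmv : Good q G (C - i) (F1 p i) (E2 p i) (p (2 * i)) := by
          have h4 := hp i
          simp only [H1_even, H2_even, hlen] at h4
          rw [dif_pos hex] at h4
          rw [h4]
          exact hex.choose_spec
        obtain ⟨h5, h6⟩ := hmv
        have hL : Legal1 p i := by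
          intro j hj
          rcases Nat.lt_or_eq_of_le hj with h7 | h7
          · exact h3 j h7
          · subst h7
            exact (leg1_iff p j).1 h5
        rw [← E1_eq] at h6
        by_cases h8 : HasK q (E1 p i)
        · exact Or.inl ⟨i, ⟨by omega, hG⟩, h8, h2, hL⟩
        · right
          rcases h6 with h6 | ⟨hGi, -, h6⟩
          · exact absurd h6 h8
          · have h9 := (leg2_iff p i).2 (hl i h8 h2)
            obtain ⟨h10, h11⟩ := h6 _ h9
            rw [← E2_succ] at h10 h11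
            rw [F1_succ, show C + 1 - (i + 1) = C - i by omega]
            refine ⟨h11, h10, h8, fun j hj => hL j (by omega), ?_⟩
            intro j hj
            rcases Nat.lt_or_eq_of_le (Nat.lt_succ_iff.1 hj) with h12 | h12
            · exact hG j h12
            · subst h12
              exact hGi
  rcases key (C + 1) le_rfl with ⟨k, hk, h1, h2, h3⟩ | ⟨h1, -⟩
  · exact ⟨k, hk, h1, h2, h3⟩
  · rw [Nat.sub_self] at h1
    exact h1.elim

theorem Wins.mono {q : ℕ} {P Q : (ℕ → Sym2 V) → ℕ → Prop} (h : ∀ p k, P p k → Q p k) :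
    Wins V q P → Wins V q Q := by
  rintro ⟨σ, hσ⟩
  refine ⟨σ, fun p h1 h2 => ?_⟩
  obtain ⟨k, hk, h3⟩ := hσ p h1 h2
  exact ⟨k, h p k hk, h3⟩

theorem wins_of_WB {q : ℕ} (hq : 2 ≤ q) {C : ℕ} (h : WB q Tr C (∅ : Set (Sym2 V)) ∅) :
    Wins V q (fun _ k => k < C) := (wins_of_WBG hq h).mono (fun _ _ h => h.1)

/-- As long as nobody has won, there is a free edge. -/
def Cont (V : Type) (q : ℕ) : Prop :=
  ∀ A B : Set (Sym2 V), A.Finite → B.Finite → ¬ HasK q A → ¬ HasK q B → ∃ f, Leg A B f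

/-- Two strategies determine a play. -/
theorem exists_play (σ τ : List (Sym2 V) → Sym2 V) : ∃ p : ℕ → Sym2 V, Fol1 σ p ∧ Fol2 τ p := by
  let nx : List (Sym2 V) → Sym2 V := fun h => if h.length % 2 = 0 then σ h else τ h
  let hist : ℕ → List (Sym2 V) := fun n => Nat.rec [] (fun _ h => h ++ [nx h]) n
  have hs : ∀ n, hist (n + 1) = hist n ++ [nx (hist n)] := fun n => rfl
  let p : ℕ → Sym2 V := fun n => nx (hist n)
  have hh : ∀ n, hist n = (List.range n).map p := by
    intro n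
    induction n with
    | zero => rfl
    | succ n ih =>
      rw [hs, List.range_succ, List.map_append, ← ih]
      rfl
  have hlen : ∀ n, (hist n).length = n := by
    intro n
    rw [hh, List.length_map, List.length_range]
  refine ⟨p, ?_, ?_⟩
  · intro i
    rw [← hh]
    exact if_pos (by rw [hlen]; omega)
  · intro i
    rw [← hh]
    have h5 := hlen (2 * i + 1)
    exact if_neg (by omega)

/-- A strategy of the second player from a set `N` of positions not won by the first player. -/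
theorem spoil {q : ℕ} (hq : 2 ≤ q) (hc : Cont V q) (F : ℕ → Prop) (hF : ∀ i j, i ≤ j → F j → F i)
    (G : Set (Sym2 V) → Set (Sym2 V) → Prop) (N : ℕ → Set (Sym2 V) → Set (Sym2 V) → Prop)
    (hN : ∀ i A B, A.Finite → B.Finite → N i A B → ¬ HasK q B → ∀ e, Leg A B e →
      (HasK q (insert e A) → ¬ F i) ∧ (¬ HasK q (insert e A) → G (insert e A) B →
        ∃ f, Leg (insert e A) B f ∧
          (HasK q (insert f B) ∨ N (i + 1) (insert e A) (insert f B))))
    (h0 : N 0 ∅ ∅) :
    ∃ τ : List (Sym2 V) → Sym2 V, ∀ p, Fol2 τ p → Legal2 q p ∧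
      ∀ k, Legal1 p k → ¬ HasK q (E2 p k) → HasK q (E1 p k) → F k →
        (∀ j, j < k → G (E1 p j) (E2 p j)) → False := by
  classical
  obtain ⟨d, -⟩ := hc ∅ ∅ Set.finite_empty Set.finite_empty (not_hasK_empty hq) (not_hasK_empty hq)
  let Q : ℕ → Set (Sym2 V) → Set (Sym2 V) → Sym2 V → Prop := fun i A B f =>
    Leg A B f ∧ (HasK q (insert f B) ∨ N (i + 1) A (insert f B))
  let τ : List (Sym2 V) → Sym2 V := fun h =>
    if H : ∃ f, Q (h.length / 2) (H1 h) (H2 h) f then H.choose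
    else if H' : ∃ f, Leg (H1 h) (H2 h) f then H'.choose else d
  refine ⟨τ, ?_⟩
  intro p hp
  have hmv : ∀ i, p (2 * i + 1) = if H : ∃ f, Q i (E1 p i) (E2 p i) f then H.choose
      else if H' : ∃ f, Leg (E1 p i) (E2 p i) f then H'.choose else d := by
    intro i
    have h4 := hp i
    have hlen : ((List.range (2 * i + 1)).map p).length / 2 = i := by
      rw [List.length_map, List.length_range]; omega
    simp only [τ, H1_odd, H2_odd, hlen] at h4
    exact h4
  refine ⟨?_, ?_⟩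
  · intro i h1 h2
    rw [← leg2_iff]
    have hex : ∃ f, Leg (E1 p i) (E2 p i) f :=
      hc _ _ (by rw [← F1_succ]; exact F1_finite p _) (E2_finite p i) h1 h2
    rw [hmv i]
    split_ifs with H
    · exact H.choose_spec.1
    · exact hex.choose_spec
  · intro k hL h2 h1 hFk hG
    -- minimal k
    have hex : ∃ k, HasK q (E1 p k) := ⟨k, h1⟩
    have hm := Nat.find_spec hex
    have hmin : ∀ j, j < Nat.find hex → ¬ HasK q (E1 p j) := fun j hj => Nat.find_min hex hj
    have hle : Nat.find hex ≤ k := Nat.find_min' hex h1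
    generalize Nat.find hex = l at hm hmin hle
    have key : ∀ i, i ≤ l → N i (F1 p i) (E2 p i) := by
      intro i
      induction i with
      | zero => intro _; rw [F1_zero, E2_zero]; exact h0
      | succ i ih =>
        intro hi
        have g1 := ih (by omega)
        have g2 : ¬ HasK q (E2 p i) := fun h => h2 (h.mono (E2_mono p (by omega)))
        have g3 : Leg (F1 p i) (E2 p i) (p (2 * i)) := (leg1_iff p i).2 (hL i (by omega))
        have g4 := (hN i _ _ (F1_finite p i) (E2_finite p i) g1 g2 _ g3).2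
        rw [← E1_eq] at g4
        have g5 : ∃ f, Q i (E1 p i) (E2 p i) f := g4 (hmin i (by omega)) (hG i (by omega))
        have g6 := g5.choose_spec
        have g7 : p (2 * i + 1) = g5.choose := by rw [hmv i, dif_pos g5]
        rw [← g7] at g6
        obtain ⟨-, g8⟩ := g6
        rw [← E2_succ] at g8
        rw [F1_succ]
        rcases g8 with g8 | g8
        · exact absurd (g8.mono (E2_mono p (by omega))) h2
        · exact g8
    have g1 := key l le_rfl
    have g2 : ¬ HasK q (E2 p l) := fun h => h2 (h.mono (E2_mono p hle))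
    have g3 : Leg (F1 p l) (E2 p l) (p (2 * l)) := (leg1_iff p l).2 (hL l hle)
    have g4 := (hN l _ _ (F1_finite p l) (E2_finite p l) g1 g2 _ g3).1
    rw [← E1_eq] at g4
    exact g4 hm (hF _ _ hle hFk)

end Pool.CG
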