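import Pool.Agent.H31.CG.Bas

/-!
Clique game: transfer of winning positions between boards.
-/

set_option autoImplicit false

namespace Pool.CG

variable {V W : Type}

theorem insert_image (f : V → W) (e : V) (A : Set V) : f '' insert e A = insert (f e) (f '' A) :=
  Set.image_insert_eq

theorem sup_insert {S : Set V} {A : Set (Sym2 V)} {e : Sym2 V} (h : Sup S A) (he : ∀ v ∈ e, v ∈ S) :
    Sup S (insert e A) := by
  intro f hf
  rcases hf with rfl | hf
  · exact he
  · exact h f hf

theorem Sup.mono {S T : Set V} {A : Set (Sym2 V)} (h : Sup S A) (hST : S ⊆ T) : Sup T A :=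
  fun e he v hv => hST (h e he v hv)

/-- Every position is supported by the set of its touched vertices. -/
def Tch (A B : Set (Sym2 V)) : Set V := {v | ∃ e, (e ∈ A ∨ e ∈ B) ∧ v ∈ e}

theorem sup_tch_left (A B : Set (Sym2 V)) : Sup (Tch A B) A := fun e he _ hv => ⟨e, Or.inl he, hv⟩

theorem sup_tch_right (A B : Set (Sym2 V)) : Sup (Tch A B) B := fun e he _ hv => ⟨e, Or.inr he, hv⟩

/-- A win with two untouched vertices in reserve goes to larger boards. -/
theorem WB.up {q : ℕ} (hq : 2 ≤ q) : ∀ {k : ℕ} (ι : V ↪ W) {A B : Set (Sym2 V)},
    WB q Res k A B → WB q Res k (Sym2.map ι '' A) (Sym2.map ι '' B) := by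
  intro k
  induction k with
  | zero => intro ι A B h; exact h.elim
  | succ k ih =>
    intro ι A B h
    obtain ⟨e, he, h1⟩ := h
    refine ⟨Sym2.map ι e, leg_image.2 he, ?_⟩
    rw [← insert_image]
    rcases h1 with h1 | ⟨⟨u, u', huu, hu⟩, h2, h3⟩
    · exact Or.inl (h1.image ι)
    · refine Or.inr ⟨⟨ι u, ι u', fun h => huu (ι.injective h), ?_⟩, ?_, ?_⟩
      · rintro f (⟨g, hg, rfl⟩ | ⟨g, hg, rfl⟩)
        · constructor
          · intro h
            obtain ⟨v, hv, hv2⟩ := Sym2.mem_map.1 h
            exact (hu g (Or.inl hg)).1 (ι.injective hv2 ▸ hv)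
          · intro h
            obtain ⟨v, hv, hv2⟩ := Sym2.mem_map.1 h
            exact (hu g (Or.inl hg)).2 (ι.injective hv2 ▸ hv)
        · constructor
          · intro h
            obtain ⟨v, hv, hv2⟩ := Sym2.mem_map.1 h
            exact (hu g (Or.inr hg)).1 (ι.injective hv2 ▸ hv)
          · intro h
            obtain ⟨v, hv, hv2⟩ := Sym2.mem_map.1 h
            exact (hu g (Or.inr hg)).2 (ι.injective hv2 ▸ hv)
      · obtain ⟨f, hf⟩ := h2
        exact ⟨Sym2.map ι f, leg_image.2 hf⟩
      · intro f hf
        induction f with
        | h a b =>
          have hun : u ∉ Tch (insert e A) B := by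
            rintro ⟨g, hg, hg2⟩
            exact (hu g hg).1 hg2
          have hun' : u' ∉ Tch (insert e A) B := by
            rintro ⟨g, hg, hg2⟩
            exact (hu g hg).2 hg2
          obtain ⟨κ, k1, v, v', k2, k3, -, -⟩ :=
            reembed2 ι (Tch (insert e A) B) u u' hun hun' huu a b
          have e1 : Sym2.map κ '' (insert e A) = Sym2.map ι '' (insert e A) :=
            map_image_congr k1 (sup_tch_left _ _)
          have e2 : Sym2.map κ '' B = Sym2.map ι '' B := map_image_congr k1 (sup_tch_right _ _)
          have e3 : s(a, b) = Sym2.map κ s(v, v') := by simp [k2, k3]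
          rw [← e1, ← e2, e3] at hf
          rw [← e1, ← e2, e3, ← insert_image]
          have hf' := leg_image.1 hf
          exact ⟨fun h => (h3 _ hf').1 (h.of_image hq κ), ih κ (h3 _ hf').2⟩

/-- There is room for `m` vertices. -/
def Room (V : Type) (m : ℕ) : Prop := Infinite V ∨ m ≤ Nat.card V

theorem Room.mono {m n : ℕ} (h : Room V n) (hmn : m ≤ n) : Room V m := by
  rcases h with h | h
  · exact Or.inl h
  · exact Or.inr (hmn.trans h)

theorem Room.fresh {m : ℕ} (h : Room V m) (T : Finset V) (hT : T.card < m) : ∃ u, u ∉ T := by
  rcases h with h | h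
  · exact Infinite.exists_notMem_finset T
  · by_contra hc
    push Not at hc
    have h2 : Nat.card V = Nat.card T := by
      refine Nat.card_eq_of_bijective (fun v : V => (⟨v, hc v⟩ : T)) ⟨?_, ?_⟩
      · intro a b hab
        simpa using hab
      · rintro ⟨a, ha⟩
        exact ⟨a, rfl⟩
    have h3 : Nat.card T = T.card := by simp
    omega

theorem Room.fresh2 {m : ℕ} (h : Room V m) (T : Finset V) (hT : T.card + 2 ≤ m) :
    ∃ u u', u ≠ u' ∧ u ∉ T ∧ u' ∉ T := by
  classical
  obtain ⟨u, hu⟩ := h.fresh T (by omega)
  obtain ⟨u', hu'⟩ := h.fresh (insert u T) (by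
    have := Finset.card_insert_le u T
    omega)
  rw [Finset.mem_insert, not_or] at hu'
  exact ⟨u, u', fun h => hu'.1 h.symm, hu, hu'.2⟩

theorem leg_of_fresh {A B : Set (Sym2 V)} {T : Set V} (hA : Sup T A) (hB : Sup T B) {u u' : V}
    (huu : u ≠ u') (hu : u ∉ T) : Leg A B s(u, u') := by
  refine ⟨by simpa using huu, ?_, ?_⟩
  · intro h
    exact hu (hA _ h u (Sym2.mem_mk_left _ _))
  · intro h
    exact hu (hB _ h u (Sym2.mem_mk_left _ _))

/-- A win in `k` moves goes to smaller boards with enough room. -/
theorem WB.down {q : ℕ} (hq : 2 ≤ q) : ∀ {k : ℕ} (ι : V ↪ W) {A B : Set (Sym2 V)} (T : Finset V),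
    Sup (T : Set V) A → Sup (T : Set V) B → Room V (T.card + 4 * k - 2) →
    WB q Tr k (Sym2.map ι '' A) (Sym2.map ι '' B) → WB q Tr k A B := by
  classical
  intro k
  induction k with
  | zero => intro ι A B T _ _ _ h; exact h.elim
  | succ k ih =>
    intro ι A B T hA hB hR h
    obtain ⟨e, he, h1⟩ := h
    obtain ⟨u, u', huu, hu, hu'⟩ := hR.fresh2 T (by omega)
    induction e with
    | h a b =>
      obtain ⟨κ, k1, v, v', k2, k3, k4, k5⟩ :=
        reembed2 ι (T : Set V) u u' (by simpa using hu) (by simpa using hu') huu a b
      have e1 : Sym2.map κ '' A = Sym2.map ι '' A := map_image_congr k1 hA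
      have e2 : Sym2.map κ '' B = Sym2.map ι '' B := map_image_congr k1 hB
      have e3 : s(a, b) = Sym2.map κ s(v, v') := by simp [k2, k3]
      rw [← e1, ← e2, e3] at he
      rw [← e1, ← e2, e3, ← insert_image] at h1
      have he' := leg_image.1 he
      refine ⟨s(v, v'), he', ?_⟩
      rcases h1 with h1 | ⟨-, h2, h3⟩
      · exact Or.inl (h1.of_image hq κ)
      · have hk : 1 ≤ k := by
          rcases Nat.eq_zero_or_pos k with h0 | h0
          · subst h0
            obtain ⟨f, hf⟩ := h2
            exact (h3 f hf).2.elim
          · exact h0
        have hT1 : (insert v (insert v' T)).card ≤ T.card + 2 := by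
          have g1 := Finset.card_insert_le v (insert v' T)
          have g2 := Finset.card_insert_le v' T
          omega
        have hA1 : Sup ((insert v (insert v' T) : Finset V) : Set V) (insert s(v, v') A) := by
          refine sup_insert (hA.mono ?_) ?_
          · intro w hw
            simp only [Finset.coe_insert, Set.mem_insert_iff]
            exact Or.inr (Or.inr hw)
          · intro w hw
            simp only [Finset.coe_insert, Set.mem_insert_iff]
            rcases Sym2.mem_iff.1 hw with h | h
            · exact Or.inl h
            · exact Or.inr (Or.inl h)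
        have hB1 : Sup ((insert v (insert v' T) : Finset V) : Set V) B := by
          refine hB.mono ?_
          intro w hw
          simp only [Finset.coe_insert, Set.mem_insert_iff]
          exact Or.inr (Or.inr hw)
        refine Or.inr ⟨trivial, ?_, ?_⟩
        · obtain ⟨w, w', hww, hw, -⟩ := hR.fresh2 (insert v (insert v' T)) (by omega)
          exact ⟨s(w, w'), leg_of_fresh hA1 hB1 hww (by simpa using hw)⟩
        · intro f hf
          obtain ⟨g1, g2⟩ := h3 _ (leg_image.2 hf)
          rw [← insert_image] at g1 g2
          refine ⟨fun h => g1 (h.image κ), ?_⟩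
          induction f with
          | h x y =>
            have hT2 : (insert x (insert y (insert v (insert v' T)))).card ≤ T.card + 4 := by
              have g3 := Finset.card_insert_le x (insert y (insert v (insert v' T)))
              have g4 := Finset.card_insert_le y (insert v (insert v' T))
              omega
            have hsub : ((insert v (insert v' T) : Finset V) : Set V) ⊆
                ((insert x (insert y (insert v (insert v' T))) : Finset V) : Set V) := by
              intro w hw
              rw [Finset.coe_insert, Finset.coe_insert]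
              exact Or.inr (Or.inr hw)
            refine ih κ (insert x (insert y (insert v (insert v' T)))) (hA1.mono hsub) ?_
              (hR.mono (by omega)) g2
            refine sup_insert (hB1.mono hsub) ?_
            intro w hw
            rw [Finset.coe_insert, Finset.coe_insert]
            rcases Sym2.mem_iff.1 hw with h | h
            · exact Or.inl h
            · exact Or.inr (Or.inl h)

/-- With enough room a win in `k` moves keeps two vertices in reserve. -/
theorem WB.res {q : ℕ} : ∀ {k : ℕ} {A B : Set (Sym2 V)} (T : Finset V),
    Sup (T : Set V) A → Sup (T : Set V) B → Room V (T.card + 4 * k - 2) →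
    WB q Tr k A B → WB q Res k A B := by
  classical
  intro k
  induction k with
  | zero => intro A B T _ _ _ h; exact h.elim
  | succ k ih =>
    intro A B T hA hB hR h
    obtain ⟨e, he, h1⟩ := h
    refine ⟨e, he, ?_⟩
    rcases h1 with h1 | ⟨-, h2, h3⟩
    · exact Or.inl h1
    · have hk : 1 ≤ k := by
        rcases Nat.eq_zero_or_pos k with h0 | h0
        · subst h0
          obtain ⟨f, hf⟩ := h2
          exact (h3 f hf).2.elim
        · exact h0
      induction e with
      | h v v' =>
        have hT1 : (insert v (insert v' T)).card ≤ T.card + 2 := by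
          have g1 := Finset.card_insert_le v (insert v' T)
          have g2 := Finset.card_insert_le v' T
          omega
        have hA1 : Sup ((insert v (insert v' T) : Finset V) : Set V) (insert s(v, v') A) := by
          refine sup_insert (hA.mono ?_) ?_
          · intro w hw
            rw [Finset.coe_insert, Finset.coe_insert]
            exact Or.inr (Or.inr hw)
          · intro w hw
            rw [Finset.coe_insert, Finset.coe_insert]
            rcases Sym2.mem_iff.1 hw with h | h
            · exact Or.inl h
            · exact Or.inr (Or.inl h)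
        have hB1 : Sup ((insert v (insert v' T) : Finset V) : Set V) B := by
          refine hB.mono ?_
          intro w hw
          rw [Finset.coe_insert, Finset.coe_insert]
          exact Or.inr (Or.inr hw)
        refine Or.inr ⟨?_, h2, ?_⟩
        · obtain ⟨w, w', hww, hw, hw'⟩ := hR.fresh2 (insert v (insert v' T)) (by omega)
          refine ⟨w, w', hww, ?_⟩
          intro f hf
          constructor
          · intro hwf
            rcases hf with hf | hf
            · exact hw (by simpa using hA1 f hf w hwf)
            · exact hw (by simpa using hB1 f hf w hwf)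
          · intro hwf
            rcases hf with hf | hf
            · exact hw' (by simpa using hA1 f hf w' hwf)
            · exact hw' (by simpa using hB1 f hf w' hwf)
        · intro f hf
          refine ⟨(h3 f hf).1, ?_⟩
          have g2 := (h3 f hf).2
          induction f with
          | h x y =>
            have hT2 : (insert x (insert y (insert v (insert v' T)))).card ≤ T.card + 4 := by
              have g3 := Finset.card_insert_le x (insert y (insert v (insert v' T)))
              have g4 := Finset.card_insert_le y (insert v (insert v' T))
              omega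
            have hsub : ((insert v (insert v' T) : Finset V) : Set V) ⊆
                ((insert x (insert y (insert v (insert v' T))) : Finset V) : Set V) := by
              intro w hw
              rw [Finset.coe_insert, Finset.coe_insert]
              exact Or.inr (Or.inr hw)
            refine ih (insert x (insert y (insert v (insert v' T)))) (hA1.mono hsub) ?_
              (hR.mono (by omega)) g2
            refine sup_insert (hB1.mono hsub) ?_
            intro w hw
            rw [Finset.coe_insert, Finset.coe_insert]
            rcases Sym2.mem_iff.1 hw with h | h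
            · exact Or.inl h
            · exact Or.inr (Or.inl h)

theorem sup_empty (S : Set V) : Sup S (∅ : Set (Sym2 V)) := fun _ h => h.elim

/-- Winning in at most `k` moves does not depend on the board, if it has at least `4 k - 2` vertices. -/
theorem WB.board {q : ℕ} (hq : 2 ≤ q) {k : ℕ} (hV : Room V (4 * k - 2)) (hW : Room W (4 * k - 2))
    (h : WB q Tr k (∅ : Set (Sym2 V)) ∅) : WB q Tr k (∅ : Set (Sym2 W)) ∅ := by
  rcases Function.Embedding.total V W with ⟨⟨ι⟩⟩ | ⟨⟨ι⟩⟩
  · have h1 : WB q Res k (∅ : Set (Sym2 V)) ∅ :=
      WB.res ∅ (sup_empty _) (sup_empty _) (by simpa using hV) h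
    have h2 := h1.up hq ι
    rw [Set.image_empty] at h2
    exact h2.toTr
  · refine WB.down hq ι ∅ (sup_empty _) (sup_empty _) (by simpa using hW) ?_
    rw [Set.image_empty]
    exact h

end Pool.CG
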