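import Pool.Agent.H31.CG.Game

/-!
Clique game: determinacy, strategy stealing on finite boards, compactness on infinite boards.
-/

set_option autoImplicit false

namespace Pool.CG

variable {V W : Type}

theorem exists_sup (A : Set (Sym2 V)) (hA : A.Finite) : ∃ T : Finset V, Sup (T : Set V) A := by
  classical
  induction A, hA using Set.Finite.induction_on with
  | empty => exact ⟨∅, sup_empty _⟩
  | @insert e s _ _ ih =>
    obtain ⟨T, hT⟩ := ih
    induction e with
    | h x y =>
      refine ⟨insert x (insert y T), sup_insert (hT.mono ?_) ?_⟩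
      · intro w hw
        rw [Finset.coe_insert, Finset.coe_insert]
        exact Or.inr (Or.inr hw)
      · intro w hw
        rw [Finset.coe_insert, Finset.coe_insert]
        rcases Sym2.mem_iff.1 hw with h | h
        · exact Or.inl h
        · exact Or.inr (Or.inl h)

theorem exists_sup2 (A B : Set (Sym2 V)) (hA : A.Finite) (hB : B.Finite) :
    ∃ T : Finset V, Sup (T : Set V) A ∧ Sup (T : Set V) B := by
  classical
  obtain ⟨T, hT⟩ := exists_sup A hA
  obtain ⟨T', hT'⟩ := exists_sup B hB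
  exact ⟨T ∪ T', hT.mono (by simp), hT'.mono (by simp)⟩

theorem cont_inf [hV : Infinite V] (q : ℕ) : Cont V q := by
  intro A B hA hB _ _
  obtain ⟨T, hT, hT'⟩ := exists_sup2 A B hA hB
  have hR : Room V (T.card + 2) := Or.inl hV
  obtain ⟨u, u', huu, hu, -⟩ := hR.fresh2 T le_rfl
  exact ⟨s(u, u'), leg_of_fresh hT hT' huu (by simpa using hu)⟩

/-- Every colouring of the edges of the complete graph on `V` with two colours has a monochromatic
complete graph on `q` vertices. -/
def Ram (V : Type) (q : ℕ) : Prop :=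
  ∀ c : Sym2 V → Bool, ∃ s : Finset V, s.card = q ∧ ∃ b : Bool,
    ∀ x ∈ s, ∀ y ∈ s, x ≠ y → c s(x, y) = b

theorem cont_ram {q : ℕ} (h : Ram V q) : Cont V q := by
  classical
  intro A B _ _ hKA hKB
  by_contra hc
  obtain ⟨s, hs, b, hb⟩ := h (fun e => decide (e ∈ A))
  cases b with
  | true =>
    exact hKA ⟨s, hs, fun x hx y hy hxy => by simpa using hb x hx y hy hxy⟩
  | false =>
    refine hKB ⟨s, hs, fun x hx y hy hxy => ?_⟩
    have h1 : s(x, y) ∉ A := by simpa using hb x hx y hy hxy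
    by_contra h2
    exact hc ⟨s(x, y), by simpa using hxy, h1, h2⟩

theorem one_of_hasK {q : ℕ} {G : Set (Sym2 V) → Set (Sym2 V) → Prop} {A B : Set (Sym2 V)}
    {e : Sym2 V} (he : Leg A B e) (h : HasK q (insert e A)) : WB q G 1 A B := ⟨e, he, Or.inl h⟩

/-- From strategies to positions, with a bound. -/
theorem WB_of_wins {q : ℕ} (hq : 2 ≤ q) (hc : Cont V q) {C : ℕ}
    (h : Wins V q (fun _ k => k < C)) : WB q Tr C (∅ : Set (Sym2 V)) ∅ := by
  by_contra h0
  obtain ⟨σ, hσ⟩ := h
  have key := spoil hq hc (fun i => i < C) (fun i j hij hj => lt_of_le_of_lt hij hj) Tr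
    (fun i A B => ¬ WB q Tr (C - i) A B)
  have key2 : ∀ i (A B : Set (Sym2 V)), A.Finite → B.Finite → ¬ WB q Tr (C - i) A B →
      ¬ HasK q B → ∀ e, Leg A B e →
      (HasK q (insert e A) → ¬ i < C) ∧ (¬ HasK q (insert e A) → Tr (insert e A) B →
        ∃ f, Leg (insert e A) B f ∧
          (HasK q (insert f B) ∨ ¬ WB q Tr (C - (i + 1)) (insert e A) (insert f B))) := by
    intro i A B hA hB hN hKB e he
    refine ⟨?_, ?_⟩
    · intro h1 hi
      exact hN ((one_of_hasK he h1).mono_k (by omega))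
    · intro h1 _
      by_contra h2
      push Not at h2
      obtain ⟨f, hf⟩ := hc (insert e A) B (hA.insert e) hB h1 hKB
      have hi : i < C := by
        by_contra hi
        have h3 := (h2 f hf).2
        rw [show C - (i + 1) = 0 by omega] at h3
        exact h3
      apply hN
      rw [show C - i = (C - (i + 1)) + 1 by omega]
      exact ⟨e, he, Or.inr ⟨trivial, ⟨f, hf⟩, fun g hg => h2 g hg⟩⟩
  obtain ⟨τ, hτ⟩ := key key2 h0
  obtain ⟨p, hp1, hp2⟩ := exists_play σ τ
  obtain ⟨h1, h2⟩ := hτ p hp2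
  obtain ⟨k, hk, h3, h4, h5⟩ := hσ p hp1 h1
  exact h2 k h5 h4 h3 hk (fun _ _ => trivial)

/-- Uniform bounds. -/
def MX (V : Type) (q : ℕ) (G : Set (Sym2 V) → Set (Sym2 V) → Prop) : Prop :=
  ∀ A B : Set (Sym2 V), A.Finite → B.Finite → (∀ f, Leg A B f → ∃ k, WB q G k A (insert f B)) →
    ∃ K, ∀ f, Leg A B f → WB q G K A (insert f B)

theorem mx_fin [Finite V] (q : ℕ) (G : Set (Sym2 V) → Set (Sym2 V) → Prop) : MX V q G := by
  classical
  intro A B _ _ h
  have h' : ∀ f, ∃ k, Leg A B f → WB q G k A (insert f B) := by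
    intro f
    by_cases hf : Leg A B f
    · obtain ⟨k, hk⟩ := h f hf
      exact ⟨k, fun _ => hk⟩
    · exact ⟨0, fun h => absurd h hf⟩
  choose k hk using h'
  have : Finite (Sym2 V) := Quot.finite _
  obtain ⟨K, hK⟩ := (Set.finite_range k).bddAbove
  exact ⟨K, fun f hf => (hk f hf).mono_k (hK ⟨f, rfl⟩)⟩

theorem mx_inf [hV : Infinite V] {q : ℕ} (hq : 2 ≤ q) : MX V q Tr := by
  classical
  intro A B hA hB h
  obtain ⟨T, hTA, hTB⟩ := exists_sup2 A B hA hB
  have hR : ∀ m, Room V m := fun m => Or.inl hV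
  obtain ⟨u, u', huu, hu, hu'⟩ := (hR (T.card + 2)).fresh2 T le_rfl
  have h' : ∀ f, ∃ k, Leg A B f → WB q Tr k A (insert f B) := by
    intro f
    by_cases hf : Leg A B f
    · obtain ⟨k, hk⟩ := h f hf
      exact ⟨k, fun _ => hk⟩
    · exact ⟨0, fun h => absurd h hf⟩
  choose k hk using h'
  let S : Finset (Sym2 V) := (insert u (insert u' T)).sym2
  refine ⟨S.sup k, ?_⟩
  intro f hf
  induction f with
  | h a b =>
    obtain ⟨κ, k1, v, v', k2, k3, k4, k5⟩ :=
      reembed2 (Function.Embedding.refl V) (T : Set V) u u' (by simpa using hu)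
        (by simpa using hu') huu a b
    have e1 : Sym2.map κ '' A = A := by
      rw [map_image_congr k1 hTA]
      simp
    have e2 : Sym2.map κ '' B = B := by
      rw [map_image_congr k1 hTB]
      simp
    have e3 : s(a, b) = Sym2.map κ s(v, v') := by simp [k2, k3]
    have hf' : Leg A B s(v, v') := by
      rw [← leg_image (ι := κ), e1, e2, ← e3]
      exact hf
    have hS : s(v, v') ∈ S := by
      simp only [S, Finset.mk_mem_sym2_iff, Finset.mem_insert]
      constructor
      · rcases k4 with h | h | h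
        · exact Or.inr (Or.inr (by simpa using h))
        · exact Or.inl h
        · exact Or.inr (Or.inl h)
      · rcases k5 with h | h | h
        · exact Or.inr (Or.inr (by simpa using h))
        · exact Or.inl h
        · exact Or.inr (Or.inl h)
    have h1 := (hk _ hf').mono_k (Finset.le_sup (f := k) hS)
    obtain ⟨T', hT1, hT2⟩ := exists_sup2 A (insert s(v, v') B) hA (hB.insert _)
    have h2 := (WB.res T' hT1 hT2 (hR _) h1).up hq κ
    rw [insert_image, e1, e2, ← e3] at h2
    exact h2.toTr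

/-- Positions not won by the player to move. -/
theorem N_closed {q : ℕ} {G : Set (Sym2 V) → Set (Sym2 V) → Prop} (hM : MX V q G) (hc : Cont V q)
    {A B : Set (Sym2 V)} (hA : A.Finite) (hB : B.Finite) (hKB : ¬ HasK q B)
    (hN : ∀ k, ¬ WB q G k A B) {e : Sym2 V} (he : Leg A B e) :
    ¬ HasK q (insert e A) ∧ (G (insert e A) B → ∃ f, Leg (insert e A) B f ∧
      (HasK q (insert f B) ∨ ∀ k, ¬ WB q G k (insert e A) (insert f B))) := by
  refine ⟨fun h => hN 1 (one_of_hasK he h), ?_⟩
  intro hG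
  have h1 : ¬ HasK q (insert e A) := fun h => hN 1 (one_of_hasK he h)
  by_contra h2
  push Not at h2
  obtain ⟨f, hf⟩ := hc (insert e A) B (hA.insert e) hB h1 hKB
  obtain ⟨K, hK⟩ := hM (insert e A) B (hA.insert e) hB (fun g hg => (h2 g hg).2)
  exact hN (K + 1) ⟨e, he, Or.inr ⟨hG, ⟨f, hf⟩, fun g hg => ⟨(h2 g hg).1, hK g hg⟩⟩⟩

/-- The strategy of the second player if the first one cannot force a win in bounded time. -/
theorem exists_tau {q : ℕ} (hq : 2 ≤ q) {G : Set (Sym2 V) → Set (Sym2 V) → Prop} (hM : MX V q G)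
    (hc : Cont V q) (h0 : ∀ k, ¬ WB q G k (∅ : Set (Sym2 V)) ∅) :
    ∃ τ : List (Sym2 V) → Sym2 V, ∀ p, Fol2 τ p → Legal2 q p ∧
      ∀ k, Legal1 p k → ¬ HasK q (E2 p k) → HasK q (E1 p k) →
        (∀ j, j < k → G (E1 p j) (E2 p j)) → False := by
  have key := spoil hq hc (fun _ => True) (fun _ _ _ _ => trivial) G
    (fun _ A B => ∀ k, ¬ WB q G k A B)
  obtain ⟨τ, hτ⟩ := key (by
    intro i A B hA hB hN hKB e he
    obtain ⟨h1, h2⟩ := N_closed hM hc hA hB hKB hN he
    exact ⟨fun h => absurd h h1, fun _ hG => h2 hG⟩) h0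
  exact ⟨τ, fun p hp => ⟨(hτ p hp).1, fun k h1 h2 h3 h4 => (hτ p hp).2 k h1 h2 h3 trivial h4⟩⟩

theorem leg_symm {A B : Set (Sym2 V)} {e : Sym2 V} : Leg A B e ↔ Leg B A e :=
  ⟨fun h => ⟨h.1, h.2.2, h.2.1⟩, fun h => ⟨h.1, h.2.2, h.2.1⟩⟩

/-- Strategy stealing. -/
theorem steal_aux [Finite V] {q : ℕ} (hc : Cont V q) :
    ∀ (m : ℕ) (A B : Set (Sym2 V)) (x : Sym2 V), (∀ k, ¬ WB q Tr k A B) → ¬ HasK q A →
      ¬ HasK q (insert x B) → ¬ x.IsDiag → x ∉ A → x ∉ B →
      {e : Sym2 V | e ∉ A ∧ e ∉ insert x B}.ncard ≤ m → ∀ e, Leg (insert x B) A e →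
        ¬ HasK q (insert e A) ∧ ∃ K, WB q Tr K (insert x B) (insert e A) := by
  classical
  have : Finite (Sym2 V) := Quot.finite _
  intro m
  induction m with
  | zero =>
    intro A B x _ _ _ _ _ _ hm e he
    rw [Nat.le_zero, Set.ncard_eq_zero (Set.toFinite _)] at hm
    have h1 : e ∈ {e : Sym2 V | e ∉ A ∧ e ∉ insert x B} := ⟨he.2.2, he.2.1⟩
    rw [hm] at h1
    exact h1.elim
  | succ m ih =>
    intro A B x hN hKA hKx hx hxA hxB hm e he
    have hKB : ¬ HasK q B := fun h => hKx (h.mono (Set.subset_insert _ _))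
    have hex : e ≠ x := fun h => he.2.1 (Or.inl h)
    have heB : e ∉ B := fun h => he.2.1 (Or.inr h)
    have he' : Leg A B e := ⟨he.1, he.2.2, heB⟩
    obtain ⟨h1, h2⟩ := N_closed (mx_fin q Tr) hc (Set.toFinite A) (Set.toFinite B) hKB hN he'
    obtain ⟨f, hf, h3⟩ := h2 trivial
    refine ⟨h1, ?_⟩
    by_cases hfx : f = x
    · subst hfx
      rcases h3 with h3 | h3
      · exact absurd h3 hKx
      · obtain ⟨x', hx'⟩ := hc (insert e A) (insert f B) (Set.toFinite _) (Set.toFinite _) h1 hKx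
        by_cases h4 : HasK q (insert x' (insert f B))
        · exact ⟨1, one_of_hasK (leg_symm.1 hx') h4⟩
        · have h5 := ih (insert e A) (insert f B) x' h3 h1 h4 hx'.1 hx'.2.1 hx'.2.2 ?_
          · obtain ⟨K, hK⟩ := mx_fin q Tr (insert x' (insert f B)) (insert e A) (Set.toFinite _)
              (Set.toFinite _) (fun g hg => (h5 g hg).2)
            obtain ⟨g, hg⟩ := hc (insert x' (insert f B)) (insert e A) (Set.toFinite _)
              (Set.toFinite _) h4 h1
            exact ⟨K + 1, x', leg_symm.1 hx', Or.inr ⟨trivial, ⟨g, hg⟩,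
              fun g hg => ⟨(h5 g hg).1, hK g hg⟩⟩⟩
          · have h6 : {e_1 : Sym2 V | e_1 ∉ insert e A ∧ e_1 ∉ insert x' (insert f B)}.ncard <
                {e : Sym2 V | e ∉ A ∧ e ∉ insert f B}.ncard := by
              apply Set.ncard_lt_ncard _ (Set.toFinite _)
              refine ⟨?_, ?_⟩
              · intro g hg
                exact ⟨fun h => hg.1 (Or.inr h), fun h => hg.2 (Or.inr h)⟩
              · intro h
                have h7 : e ∈ {e : Sym2 V | e ∉ A ∧ e ∉ insert f B} := ⟨he.2.2, he.2.1⟩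
                exact (h h7).1 (Or.inl rfl)
            omega
    · have hf2 : Leg (insert x B) (insert e A) f :=
        ⟨hf.1, by rintro (h | h); exacts [hfx h, hf.2.2 h], hf.2.1⟩
      by_cases h4 : HasK q (insert f (insert x B))
      · exact ⟨1, one_of_hasK hf2 h4⟩
      · have hcm : insert f (insert x B) = insert x (insert f B) := Set.insert_comm _ _ _
        have h4' : ¬ HasK q (insert f B) := by
          intro h
          rw [hcm] at h4
          exact h4 (h.mono (Set.subset_insert _ _))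
        rcases h3 with h3 | h3
        · exact absurd h3 h4'
        · have h5 := ih (insert e A) (insert f B) x h3 h1 (by rw [← hcm]; exact h4) hx
            (by rintro (h | h); exacts [hex h.symm, hxA h])
            (by rintro (h | h); exacts [hfx h.symm, hxB h]) ?_
          · rw [← hcm] at h5
            obtain ⟨K, hK⟩ := mx_fin q Tr (insert f (insert x B)) (insert e A) (Set.toFinite _)
              (Set.toFinite _) (fun g hg => (h5 g hg).2)
            obtain ⟨g, hg⟩ := hc (insert f (insert x B)) (insert e A) (Set.toFinite _)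
              (Set.toFinite _) h4 h1
            exact ⟨K + 1, f, hf2, Or.inr ⟨trivial, ⟨g, hg⟩,
              fun g hg => ⟨(h5 g hg).1, hK g hg⟩⟩⟩
          · have h6 : {e_1 : Sym2 V | e_1 ∉ insert e A ∧ e_1 ∉ insert x (insert f B)}.ncard <
                {e : Sym2 V | e ∉ A ∧ e ∉ insert x B}.ncard := by
              apply Set.ncard_lt_ncard _ (Set.toFinite _)
              refine ⟨?_, ?_⟩
              · intro g hg
                refine ⟨fun h => hg.1 (Or.inr h), fun h => hg.2 ?_⟩
                rcases h with h | h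
                · exact Or.inl h
                · exact Or.inr (Or.inr h)
              · intro h
                have h7 : e ∈ {e : Sym2 V | e ∉ A ∧ e ∉ insert x B} := ⟨he.2.2, he.2.1⟩
                exact (h h7).1 (Or.inl rfl)
            omega

theorem steal [Finite V] {q : ℕ} (hq : 2 ≤ q) (hc : Cont V q) :
    ∃ K, WB q Tr K (∅ : Set (Sym2 V)) ∅ := by
  by_contra h0
  push Not at h0
  have hE : ¬ HasK q (∅ : Set (Sym2 V)) := not_hasK_empty hq
  have : Finite (Sym2 V) := Quot.finite _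
  obtain ⟨x, hx⟩ := hc ∅ ∅ Set.finite_empty Set.finite_empty hE hE
  by_cases h1 : HasK q (insert x (∅ : Set (Sym2 V)))
  · exact h0 1 (one_of_hasK hx h1)
  · have h2 := steal_aux hc _ ∅ ∅ x h0 hE h1 hx.1 hx.2.1 hx.2.2 le_rfl
    obtain ⟨K, hK⟩ := mx_fin q Tr (insert x (∅ : Set (Sym2 V))) ∅ (Set.toFinite _)
      (Set.toFinite _) (fun g hg => (h2 g hg).2)
    obtain ⟨g, hg⟩ := hc (insert x (∅ : Set (Sym2 V))) ∅ (Set.toFinite _) (Set.toFinite _) h1 hE
    exact h0 (K + 1) ⟨x, hx, Or.inr ⟨trivial, ⟨g, hg⟩, fun g hg => ⟨(h2 g hg).1, hK g hg⟩⟩⟩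

end Pool.CG
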